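import Pool.Agent.Q271.LG.Main

set_option autoImplicit false

namespace Pool.Agent.Results.MP_1304b2_co.ValueFormula

open Pool.Agent.Q271.LG

/-- The value of the leaf-removal game on a finite tree `T` with an arbitrary colouring `c`
(`true` = white = Left, `false` = black = Right) is the number of white essential vertices minus the
number of black essential vertices. A vertex `x` is essential if at most one neighbour `y` of `x`
blocks it, i.e. is the second vertex of a path `x, y, …, u, v, z` with `c u = c v ≠ c z`. -/
theorem result (V : Type) [Fintype V] [DecidableEq V] (T : SimpleGraph V) (hT : T.IsTree)
    (c : V → Bool) (N : ℤ) :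
    HasValue (Move T c true) (Move T c false) Finset.univ N ↔
      N = (essCard T c true : ℤ) - (essCard T c false : ℤ) := by
  rw [value hT c N, dd_univ]

end Pool.Agent.Results.MP_1304b2_co.ValueFormula
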